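import Mathlib
import Pool.Agent.Y841.ZT.Two

/-!
# Ramified abelian subfields of the splitting fields of the zeta functions in a `ℤ_p`-tower

For every `ℤ_p`-tower of curves `X_n` over a finite field of characteristic `p` with finite ramification
locus and every unramified place `v` of the base with nontrivial Frobenius element there is a constant
`m` such that for all large `n` the splitting field `ℚ_{p, n}` of `P(X_n, s)` contains all coefficients
of the `L`-functions `L(χ, s)` of all characters `χ` of order `p ^ n`, and already the ramification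
index of the subfield of `ℚ_{p, n} ∩ ℚ_p(μ_{p ^ n})` generated by the single coefficient of
`s ^ (deg v)` of one `L(χ, s)` is divisible by `p ^ (n - m)`.
-/

open PowerSeries

namespace Pool.Agent.Results.MP_9c56f6_nt.CoefficientSubfields

open Pool.Agent.H707R3

open scoped PowerSeries.WithPiTopology in
/-- The zeta function `Z(X, s) = ∏ (1 - s ^ deg x)⁻¹`, product over the closed points `x` of the curve
`X` with function field `K` over `k`. -/
noncomputable def zeta (p : ℕ) [Fact p.Prime] (k K : Type) [Field k] [Field K] [Algebra k K] :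
    PowerSeries ℂ_[p] :=
  ∏' x : Place k K, (1 - X ^ x.deg)⁻¹

/-- `A` is the multiset of reciprocal roots of `P(X, s) = Z(X, s) (1 - s) (1 - q s)`, `q = #k`:
`P(X, s) = ∏ (1 - α s)`, product over `α ∈ A`. -/
def IsRecipRoots (p : ℕ) [Fact p.Prime] (k K : Type) [Field k] [Field K] [Algebra k K]
    (A : Multiset ℂ_[p]) : Prop :=
  zeta p k K * (1 - X) * (1 - C (Nat.card k : ℂ_[p]) * X) = (A.map fun α => 1 - C α * X).prod

/-- For every `ℤ_p`-tower there are unramified places `v` with nontrivial Frobenius, and for each of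
them there are `m` and `N` such that for `n ≥ N` the zeta function of the layer `X_n` (the intermediate
field `K` with `[K : F] = p ^ n`) has reciprocal roots as above, and for the field `M` they generate
over `ℚ_p` and every character `χ` of order `p ^ n`: `M` contains all coefficients of `L(χ, s)`, the
field `Q` generated by the coefficient of `s ^ (deg v)` lies in `M` and in the field of `p ^ n`-th
roots of unity, and `p ^ (n - m)` divides the ramification index of `Q`, which is positive and divides
that of `M`. -/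
theorem result (p : ℕ) [Fact p.Prime] (k F E : Type) [Field k] [Finite k] [CharP k p]
    [Field F] [Algebra k F] [Field E] [Algebra F E] [Algebra k E] [IsScalarTower k F E]
    (h : IsZpTower k F E p) :
    (∃ v : Place k F, v.IsUnramified E ∧ v.frob E ≠ 1) ∧
    ∀ v : Place k F, v.IsUnramified E → v.frob E ≠ 1 →
    ∃ m N : ℕ, ∀ n, N ≤ n →
      ∀ K : IntermediateField F E, Module.finrank F K = p ^ n →
        (∃ A, IsRecipRoots p k K A) ∧
        ∀ A, IsRecipRoots p k K A → ∀ M : IntermediateField ℚ_[p] ℂ_[p],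
          M = IntermediateField.adjoin ℚ_[p] {α : ℂ_[p] | α ∈ A} → 0 < ramIdx M ∧
          ∀ χ : (E ≃ₐ[F] E) →* ℂ_[p]ˣ, orderOf χ = p ^ n →
            (∀ j : ℕ, coeff j (Lfun k χ) ∈ M) ∧
            ∀ Q : IntermediateField ℚ_[p] ℂ_[p],
              Q = IntermediateField.adjoin ℚ_[p] {coeff v.deg (Lfun k χ)} →
              Q ≤ M ∧ Q ≤ IntermediateField.adjoin ℚ_[p] {w : ℂ_[p] | w ^ p ^ n = 1} ∧
              0 < ramIdx Q ∧ p ^ (n - m) ∣ ramIdx Q ∧ ramIdx Q ∣ ramIdx M := by
  refine ⟨Pool.Agent.Y841.ZT.exists_frob h, fun v hv hfr => ?_⟩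
  obtain ⟨m, N, hN⟩ := Pool.Agent.Y841.ZT.tower_dvd (p := p) k h v hv hfr
  obtain ⟨N', hN'⟩ := Pool.Agent.Y841.ZT.layer_coeff h
  refine ⟨m, max N N', fun n hn K hK => ⟨H387R3.ZT.exists_roots h K n hK, ?_⟩⟩
  rintro A hA M rfl
  refine ⟨Nat.pos_of_ne_zero (ramIdx_ne_zero A (W90.ZT.layer_integral h n K hK A hA)), ?_⟩
  intro χ hχ
  have hall := hN' n (by omega) K hK A hA χ hχ
  refine ⟨hall, ?_⟩
  rintro Q rfl
  have hQM : IntermediateField.adjoin ℚ_[p] {coeff v.deg (Lfun k χ)} ≤
      IntermediateField.adjoin ℚ_[p] {α : ℂ_[p] | α ∈ A} := by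
    rw [IntermediateField.adjoin_le_iff]
    intro x hx
    rw [Set.mem_singleton_iff] at hx
    rw [hx]
    exact hall v.deg
  refine ⟨hQM, ?_, Pool.Agent.Y841.ZT.one_ramIdx_ne_zero k h n χ hχ v.deg,
    hN n (by omega) χ hχ _ (IntermediateField.subset_adjoin _ _ (Set.mem_singleton _)),
    Pool.Agent.Y841.ZT.ramIdx_dvd hQM⟩
  rw [IntermediateField.adjoin_le_iff]
  intro x hx
  rw [Set.mem_singleton_iff] at hx
  rw [hx]
  exact Pool.Agent.Y841.ZT.coeff_mem k h n χ hχ v.deg

end Pool.Agent.Results.MP_9c56f6_nt.CoefficientSubfields
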